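import Pool.Agent.H262Z.WC.Step

set_option autoImplicit false

namespace Pool.Agent.H262Z.WC

open Finset

variable {V : Type} [DecidableEq V]

/-- the set of edges on offer from one side of one component is large -/
lemma off_card {ι : Type} {M B m : ℕ} (hB : B + 1 = 2 * M)
    {blk : ℕ → Finset V} (hdisj : ∀ i j y, i < B → j < B → y ∈ blk i → y ∈ blk j → i = j)
    (hcard : ∀ i, i < B → (blk i).card = m) {U0 : Finset V} (hsub : ∀ i, i < B → blk i ⊆ U0)
    {C F : Finset (Sym2 V)} {U : Finset V} {t : ι → Bool → ℕ → V} {l x : ι → Bool → ℕ}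
    (hg : Good M B blk C F U t l x) (a : ι) (pa : Bool) (hxa : M ≤ x a pa) :
    ∃ E : Finset (Sym2 V), E ⊆ F ∧ (∀ e ∈ E, Off M B blk U t l x a pa e) ∧
      M * m ≤ E.card + (U0 \ U).card := by
  have hB0 : 0 < B := by omega
  have hle := hg.le a pa
  set z := B * l a pa - x a pa with hz
  let J := Finset.Ico z (z + M)
  have hmod : ∀ j ∈ J, ∀ j' ∈ J, j % B = j' % B → j = j' := by
    intro j hj j' hj' h
    simp only [J, Finset.mem_Ico] at hj hj'
    rcases le_total j j' with h1 | h1
    · have := (Nat.modEq_iff_dvd' h1).mp h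
      have h2 := Nat.eq_zero_of_dvd_of_lt this (by omega)
      omega
    · have := (Nat.modEq_iff_dvd' h1).mp h.symm
      have h2 := Nat.eq_zero_of_dvd_of_lt this (by omega)
      omega
  have hidx : ∀ j ∈ J, j / B < l a pa := by
    intro j hj
    simp only [J, Finset.mem_Ico] at hj
    exact (Nat.div_lt_iff_lt_mul hB0).mpr (by rw [mul_comm]; omega)
  let P : Finset (Σ _ : ℕ, V) := J.sigma fun j => blk (j % B) ∩ U
  refine ⟨P.image fun w => s(t a pa (w.1 / B), w.2), ?_, ?_, ?_⟩
  · intro e he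
    obtain ⟨⟨j, y⟩, hw, rfl⟩ := Finset.mem_image.mp he
    simp only [P, J, Finset.mem_sigma, Finset.mem_Ico, Finset.mem_inter] at hw
    exact hg.free a pa j (by omega) (by omega) y hw.2.1 hw.2.2
  · intro e he
    obtain ⟨⟨j, y⟩, hw, rfl⟩ := Finset.mem_image.mp he
    simp only [P, J, Finset.mem_sigma, Finset.mem_Ico, Finset.mem_inter] at hw
    exact ⟨j, y, by omega, by omega, hw.2.1, hw.2.2, rfl⟩
  · rw [Finset.card_image_of_injOn]
    · rw [Finset.card_sigma]
      have h1 : ∑ j ∈ J, (blk (j % B) \ U).card ≤ (U0 \ U).card := by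
        rw [← Finset.card_biUnion]
        · refine Finset.card_le_card fun y hy => ?_
          obtain ⟨j, -, hy⟩ := Finset.mem_biUnion.mp hy
          exact Finset.sdiff_subset_sdiff (hsub _ (Nat.mod_lt _ hB0)) (Finset.Subset.refl _) hy
        · intro j hj j' hj' hne
          rw [Function.onFun, Finset.disjoint_left]
          intro y hy hy'
          exact hne (hmod j hj j' hj' (hdisj _ _ y (Nat.mod_lt _ hB0) (Nat.mod_lt _ hB0)
            (Finset.mem_sdiff.mp hy).1 (Finset.mem_sdiff.mp hy').1))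
      have h2 : ∑ j ∈ J, (blk (j % B) ∩ U).card + ∑ j ∈ J, (blk (j % B) \ U).card = M * m := by
        rw [← Finset.sum_add_distrib, Finset.sum_congr rfl (g := fun _ => m)]
        · simp [J]
        · intro j _
          rw [add_comm, Finset.card_sdiff_add_card_inter, hcard _ (Nat.mod_lt _ hB0)]
      omega
    · rintro ⟨j, y⟩ hw ⟨j', y'⟩ hw' h
      simp only [P, Finset.coe_sigma, Set.mem_sigma_iff, Finset.mem_coe, Finset.mem_inter] at hw hw'
      rcases Sym2.eq_iff.mp h with ⟨-, h7⟩ | ⟨h6, -⟩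
      · simp only at h7
        subst h7
        have := hmod j hw.1 j' hw'.1
          (hdisj _ _ y (Nat.mod_lt _ hB0) (Nat.mod_lt _ hB0) hw.2.1 hw'.2.1)
        subst this; rfl
      · simp only at h6
        exact absurd (h6 ▸ hw'.2.2) (hg.out _ _ _ (hidx j hw.1))

def Vt (M h : ℤ) : ℤ :=
  (h - 2 * M) * (3 * M ^ 4 + 3 * M ^ 2 * (h + 2 * M) - (h ^ 2 + 2 * M * h + 4 * M ^ 2))

def Phi (M h : ℕ) : ℤ :=
  if h + 1 = 2 * M then (M : ℤ) ^ 5 else if 2 * M ≤ h + 1 ∧ h < 6 * M ^ 2 then Vt M h else 0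

lemma Vt_low {M h : ℤ} (hM : 30 ≤ M) (h0 : 0 ≤ h) (h1 : h ≤ 2 * M) : Vt M h ≤ 0 := by
  unfold Vt
  apply mul_nonpos_of_nonpos_of_nonneg (by linarith)
  have h2 : h ^ 2 ≤ 4 * M ^ 2 := by nlinarith
  have h3 : 2 * M * h ≤ 4 * M ^ 2 := by nlinarith
  have h4 : 0 ≤ M ^ 2 * (h + 2 * M) := by positivity
  have h5 : 4 * M ^ 2 ≤ M ^ 4 := by
    have : 4 ≤ M ^ 2 := by nlinarith
    nlinarith
  nlinarith

lemma Vt_high {M h : ℤ} (hM : 30 ≤ M) (h1 : 6 * M ^ 2 ≤ h) : Vt M h ≤ 0 := by
  unfold Vt
  have hM2 : M ≤ M ^ 2 := by nlinarith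
  apply mul_nonpos_of_nonneg_of_nonpos (by nlinarith)
  have h0 : 0 ≤ h := by nlinarith
  have h2 : 6 * M ^ 2 * h ≤ h ^ 2 := by nlinarith
  have h3 : 3 * M ^ 2 * (6 * M ^ 2) ≤ 3 * M ^ 2 * h := by
    apply mul_le_mul_of_nonneg_left h1; positivity
  have h4 : M ^ 3 ≤ M ^ 4 := by
    have : 0 ≤ M ^ 3 := by positivity
    nlinarith
  have h5 : 0 ≤ M * h := by positivity
  have h6 : 0 ≤ M ^ 4 := by positivity
  nlinarith

lemma Vt_max {M h : ℤ} (hM : 30 ≤ M) (h0 : 2 * M ≤ h) (h1 : h ≤ 6 * M ^ 2) :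
    Vt M h ≤ 162 * M ^ 6 := by
  unfold Vt
  have h4 : M ^ 3 ≤ M ^ 4 := by
    have : 0 ≤ M ^ 3 := by positivity
    nlinarith
  have hh : 0 ≤ h := by linarith
  have h3 : 3 * M ^ 2 * h ≤ 3 * M ^ 2 * (6 * M ^ 2) := by
    apply mul_le_mul_of_nonneg_left h1; positivity
  have h5 : 3 * M ^ 4 + 3 * M ^ 2 * (h + 2 * M) - (h ^ 2 + 2 * M * h + 4 * M ^ 2) ≤ 27 * M ^ 4 := by
    have : 0 ≤ h ^ 2 + 2 * M * h + 4 * M ^ 2 := by positivity
    nlinarith
  calc _ ≤ (h - 2 * M) * (27 * M ^ 4) := mul_le_mul_of_nonneg_left h5 (by linarith)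
    _ ≤ (6 * M ^ 2) * (27 * M ^ 4) := mul_le_mul_of_nonneg_right (by linarith) (by positivity)
    _ = 162 * M ^ 6 := by ring

lemma Vt_le_Phi {M : ℕ} (hM : 30 ≤ M) (h : ℕ) : Vt M h ≤ Phi M h := by
  have hM' : (30 : ℤ) ≤ M := by exact_mod_cast hM
  unfold Phi
  split_ifs with h1 h2
  · have : Vt M h ≤ 0 := Vt_low hM' (by positivity) (by omega)
    have : (0 : ℤ) ≤ (M : ℤ) ^ 5 := by positivity
    linarith
  · exact le_rfl
  · by_cases h3 : h < 6 * M ^ 2
    · exact Vt_low hM' (by positivity) (by omega)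
    · exact Vt_high hM' (by exact_mod_cast not_lt.mp h3)

lemma Phi_max {M : ℕ} (hM : 30 ≤ M) (h : ℕ) : Phi M h ≤ 162 * (M : ℤ) ^ 6 := by
  have hM' : (30 : ℤ) ≤ M := by exact_mod_cast hM
  unfold Phi
  split_ifs with h1 h2
  · have : (0 : ℤ) ≤ (M : ℤ) ^ 5 := by positivity
    nlinarith
  · exact Vt_max hM' (by omega) (by exact_mod_cast h2.2.le)
  · positivity

lemma Phi_step {M : ℕ} (hM : 30 ≤ M) {h h1 h2 f : ℕ} (hl : 2 * M ≤ h + 1) (hu : h < 6 * M ^ 2)
    (e1 : h1 + 1 = h + M) (e2 : h2 + M = h) (hf : h ≤ 4 * M * f + 7 * M) :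
    2 * Phi M h ≤ Phi M h1 + Phi M h2 + 48 * (M : ℤ) ^ 3 * f := by
  have hM' : (30 : ℤ) ≤ M := by exact_mod_cast hM
  have a1 := Vt_le_Phi hM h1
  have a2 := Vt_le_Phi hM h2
  have e1' : (h1 : ℤ) = h + M - 1 := by omega
  have e2' : (h2 : ℤ) = h - M := by omega
  have hf0 : (0 : ℤ) ≤ 48 * (M : ℤ) ^ 3 * f := by positivity
  by_cases hB : h + 1 = 2 * M
  · have b1 : Phi M h = (M : ℤ) ^ 5 := by unfold Phi; rw [if_pos hB]
    have b2 : Phi M h2 = 0 := by
      unfold Phi; rw [if_neg (by omega), if_neg (by omega)]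
    have b3 : 2 * (M : ℤ) ^ 5 ≤ Vt M h1 := by
      have : (h1 : ℤ) = 3 * M - 2 := by omega
      rw [this]; unfold Vt
      generalize (M : ℤ) = y at *
      have c1 : 3 * y ^ 4 ≤ 3 * y ^ 4 + 3 * y ^ 2 * (3 * y - 2 + 2 * y) -
          ((3 * y - 2) ^ 2 + 2 * y * (3 * y - 2) + 4 * y ^ 2) := by nlinarith
      have c2 : (3 * y - 2 - 2 * y) * (3 * y ^ 4) ≤ _ :=
        mul_le_mul_of_nonneg_left c1 (by linarith)
      have c3 : 0 ≤ y ^ 4 := by positivity
      nlinarith
    linarith
  · have b1 : Phi M h = Vt M h := by unfold Phi; rw [if_neg hB, if_pos ⟨hl, hu⟩]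
    have hf' : (h : ℤ) ≤ 4 * M * f + 7 * M := by exact_mod_cast hf
    have b2 : 12 * (M : ℤ) ^ 2 * (h - 7 * M) ≤ 48 * (M : ℤ) ^ 3 * f := by
      have : 12 * (M : ℤ) ^ 2 * (h - 7 * M) ≤ 12 * (M : ℤ) ^ 2 * (4 * M * f) :=
        mul_le_mul_of_nonneg_left (by linarith) (by positivity)
      nlinarith
    have b3 : 2 * Vt M h ≤ Vt M (h + M - 1) + Vt M (h - M) + 12 * (M : ℤ) ^ 2 * (h - 7 * M) := by
      have hh : (0 : ℤ) ≤ h := by positivity
      generalize (M : ℤ) = y at *
      generalize (h : ℤ) = w at *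
      have c : Vt y (w + y - 1) + Vt y (w - y) + 12 * y ^ 2 * (w - 7 * y) - 2 * Vt y w =
          3 * y ^ 3 * (y - 30) + 6 * y ^ 2 - 3 * y + 1 + 3 * w ^ 2 + w * (6 * y - 3) := by
        unfold Vt; ring
      have c1 : 0 ≤ 3 * y ^ 3 * (y - 30) := by
        have : 0 ≤ y - 30 := by linarith
        positivity
      have c2 : 0 ≤ w * (6 * y - 3) := mul_nonneg hh (by linarith)
      nlinarith
    rw [e1'] at a1; rw [e2'] at a2
    linarith

lemma run {ι : Type} [Fintype ι] [DecidableEq ι] {q M B m R : ℕ} (hB : B + 1 = 2 * M)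
    (hM : 30 ≤ M)
    {blk : ℕ → Finset V} (hdisj : ∀ i j y, i < B → j < B → y ∈ blk i → y ∈ blk j → i = j)
    (hcard : ∀ i, i < B → (blk i).card = m) {U0 : Finset V} (hsub : ∀ i, i < B → blk i ⊆ U0)
    (hq : q + 1 + 2 * R ≤ 2 * (M * m)) (G : ℤ)
    (hK : ∀ (C F D : Finset (Sym2 V)) (U : Finset V), Base C F D U → (U0 \ U).card ≤ R →
      G ≤ 48 * (M : ℤ) ^ 3 * D.card + 972 * (M : ℤ) ^ 8 → WaiterWins q C F) (n : ℕ) :
    ∀ (C F D : Finset (Sym2 V)) (U : Finset V) (t : ι → Bool → ℕ → V) (l x : ι → Bool → ℕ),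
      Base C F D U → Good M B blk C F U t l x → ∑ c, (x c true + x c false) = n →
      (U0 \ U).card + n ≤ R →
      G ≤ 48 * (M : ℤ) ^ 3 * D.card + ∑ c, Phi M (x c true + x c false) → WaiterWins q C F := by
  induction n using Nat.strong_induction_on with
  | _ n ih =>
    intro C F D U t l x hb hg hn hR hG
    by_cases hex : ∃ a b : ι, a ≠ b ∧ x a true + x a false = x b true + x b false ∧
        2 * M ≤ x a true + x a false + 1 ∧ x a true + x a false < 6 * M ^ 2
    · obtain ⟨a, b, hab, hh, hl, hu⟩ := hex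
      have side : ∀ c, 2 * M ≤ x c true + x c false + 1 →
          ∃ p, M ≤ x c p ∧ x c (!p) ≤ x c p := by
        intro c hc
        rcases le_total (x c true) (x c false) with h | h
        · exact ⟨false, by omega, h⟩
        · exact ⟨true, by omega, h⟩
      obtain ⟨pa, hxa, hla⟩ := side a hl
      obtain ⟨pb, hxb, hlb⟩ := side b (hh ▸ hl)
      obtain ⟨Ea, hEa1, hEa2, hEa3⟩ := off_card hB hdisj hcard hsub hg a pa hxa
      obtain ⟨Eb, hEb1, hEb2, hEb3⟩ := off_card hB hdisj hcard hsub hg b pb hxb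
      have hB0 : 0 < B := by omega
      have hdj : Disjoint Ea Eb := by
        rw [Finset.disjoint_left]
        intro e h1 h2
        obtain ⟨j, y, k1, k2, -, k4, rfl⟩ := hEa2 _ h1
        obtain ⟨j', y', k1', k2', -, k4', k5⟩ := hEb2 _ h2
        have hi : j / B < l a pa := (Nat.div_lt_iff_lt_mul hB0).mpr (by rw [mul_comm]; omega)
        have hi' : j' / B < l b pb := (Nat.div_lt_iff_lt_mul hB0).mpr (by rw [mul_comm]; omega)
        rcases Sym2.eq_iff.mp k5 with ⟨h6, -⟩ | ⟨h6, -⟩
        · exact hab (hg.inj _ _ _ _ _ _ hi hi' h6).1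
        · exact hg.out _ _ _ hi (h6 ▸ k4')
      have hc : q + 1 ≤ (Ea ∪ Eb).card := by
        rw [Finset.card_union_of_disjoint hdj]; omega
      obtain ⟨S, hS, hScard⟩ := Finset.exists_subset_card_eq hc
      have hSF : S ⊆ F := hS.trans (Finset.union_subset hEa1 hEb1)
      have hFc : S.card ≤ F.card := Finset.card_le_card hSF
      have hSoff : ∀ e ∈ S, Off M B blk U t l x a pa e ∨ Off M B blk U t l x b pb e := fun e he =>
        (Finset.mem_union.mp (hS he)).imp (hEa2 e) (hEb2 e)
      have fin : ∀ (a b : ι) (pa pb : Bool), a ≠ b →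
          x a true + x a false = x b true + x b false →
          2 * M ≤ x a true + x a false + 1 → x a true + x a false < 6 * M ^ 2 →
          M ≤ x a pa → M ≤ x b pb → x a (!pa) ≤ x a pa → x b (!pb) ≤ x b pb →
          (∀ e ∈ S, Off M B blk U t l x a pa e ∨ Off M B blk U t l x b pb e) →
          ∀ e, Off M B blk U t l x a pa e → WaiterWins q (insert e C) (F \ S) := by
        intro a b pa pb hab hh hl hu hxa hxb hla hlb hSoff e he
        obtain ⟨D', u, t', l', x', huU, hb', hg', hD, e1, e2, e3⟩ :=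
          step hB (by omega) hdisj hb hg hab hxa hxb hla hlb hSoff he
        have split : ∀ {β : Type} [AddCommMonoid β] (g : ι → β), ∑ c, g c =
            g a + g b + ∑ c ∈ (Finset.univ.erase a).erase b, g c := by
          intro β _ g
          rw [add_assoc, Finset.add_sum_erase _ _ (Finset.mem_erase.mpr ⟨hab.symm, mem_univ _⟩),
            Finset.add_sum_erase _ _ (mem_univ _)]
        have rest : ∀ c ∈ (Finset.univ.erase a).erase b,
            x' c true + x' c false = x c true + x c false := fun c hc =>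
          e3 c (Finset.ne_of_mem_erase (Finset.mem_of_mem_erase hc)) (Finset.ne_of_mem_erase hc)
        have s1 : ∑ c, (x' c true + x' c false) + 1 = n := by
          rw [← hn, split (fun c => x' c true + x' c false), split (fun c => x c true + x c false),
            Finset.sum_congr rfl rest]
          omega
        have s2 : (U0 \ U.erase u).card ≤ (U0 \ U).card + 1 := by
          refine le_trans (Finset.card_le_card (t := insert u (U0 \ U)) ?_)
            (Finset.card_insert_le _ _)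
          intro y hy
          simp only [Finset.mem_sdiff, Finset.mem_erase, Finset.mem_insert] at hy ⊢
          tauto
        refine ih _ (by omega) _ _ D' _ t' l' x' hb' hg' rfl (by omega) ?_
        have hbal := hg.bal a pa
        have hdiv := Nat.lt_mul_div_succ (x a (!pa)) hB0
        have hf : x a true + x a false ≤ 4 * M * (x a (!pa) / B) + 7 * M := by
          generalize x a (!pa) / B = f at *
          have : B * f ≤ 2 * M * f := Nat.mul_le_mul_right _ (by omega)
          have h3 : x a true + x a false = x a pa + x a (!pa) := by cases pa <;> simp [add_comm]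
          rw [Nat.mul_succ] at hdiv
          have : 4 * M * f = 2 * (2 * M * f) := by ring
          omega
        have := Phi_step hM (h1 := x' a true + x' a false) (h2 := x' b true + x' b false)
          hl hu (by omega) (by omega) hf
        rw [split (fun c => Phi M (x c true + x c false)), ← hh] at hG
        rw [split (fun c => Phi M (x' c true + x' c false)), hD,
          Finset.sum_congr rfl (fun c hc => by rw [rest c hc])]
        push_cast at this ⊢
        linarith
      refine WaiterWins.round C F S (Finset.card_pos.mp (by omega)) hSF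
        (by rw [hScard, min_eq_left (by omega)]) fun e he => ?_
      rcases hSoff e he with h | h
      · exact fin a b pa pb hab hh hl hu hxa hxb hla hlb hSoff e h
      · exact fin b a pb pa hab.symm hh.symm (hh ▸ hl) (hh ▸ hu) hxb hxa hlb hla
          (fun e he => (hSoff e he).symm) e h
    · refine hK C F D U hb (by omega) (hG.trans ?_)
      let L := Finset.univ.filter fun c : ι =>
        2 * M ≤ x c true + x c false + 1 ∧ x c true + x c false < 6 * M ^ 2
      have hL : L.card ≤ 6 * M ^ 2 := by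
        rw [← Finset.card_range (6 * M ^ 2)]
        refine Finset.card_le_card_of_injOn (fun c => x c true + x c false) ?_ ?_
        · intro c hc
          simp only [L, coe_filter, mem_univ, true_and, Set.mem_setOf_eq] at hc
          simpa using hc.2
        · intro c hc c' _ h
          simp only [L, coe_filter, mem_univ, true_and, Set.mem_setOf_eq] at hc
          by_contra hne
          exact hex ⟨c, c', hne, h, hc.1, hc.2⟩
      have h1 : ∑ c, Phi M (x c true + x c false) = ∑ c ∈ L, Phi M (x c true + x c false) := by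
        symm
        refine Finset.sum_subset (Finset.subset_univ _) fun c _ hc => ?_
        simp only [L, mem_filter, mem_univ, true_and] at hc
        unfold Phi
        have : 2 * M ≤ 6 * M ^ 2 := by nlinarith
        rw [if_neg (fun h => hc ⟨by omega, by omega⟩), if_neg hc]
      have h2 : ∑ c ∈ L, Phi M (x c true + x c false) ≤ L.card • (162 * (M : ℤ) ^ 6) :=
        Finset.sum_le_card_nsmul _ _ _ fun c _ => Phi_max hM _
      have h3 : (L.card : ℤ) * (162 * (M : ℤ) ^ 6) ≤ (6 * (M : ℤ) ^ 2) * (162 * (M : ℤ) ^ 6) :=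
        mul_le_mul_of_nonneg_right (by exact_mod_cast hL) (by positivity)
      rw [nsmul_eq_mul] at h2
      nlinarith

end Pool.Agent.H262Z.WC
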