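import Mathlib

set_option autoImplicit false

namespace Pool.Agent.H262Z.WC

/-- The `(1 : q)` Waiter-Client odd cycle game. `WaiterWins q C F` says that Waiter has a winning
strategy from the position in which Client owns the edges `C` and `F` is the set of unclaimed edges.
If no edge is unclaimed, Waiter has won when Client's graph is not bipartite. Otherwise Waiter
offers `q + 1` unclaimed edges (all of them if fewer remain), Client claims any one of them, and
the others go to Waiter. -/
inductive WaiterWins {V : Type} [DecidableEq V] (q : ℕ) :
    Finset (Sym2 V) → Finset (Sym2 V) → Prop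
  | finish (C : Finset (Sym2 V)) :
      ¬ (SimpleGraph.fromEdgeSet (C : Set (Sym2 V))).IsBipartite → WaiterWins q C ∅
  | round (C F S : Finset (Sym2 V)) : F.Nonempty → S ⊆ F → S.card = min (q + 1) F.card →
      (∀ e ∈ S, WaiterWins q (insert e C) (F \ S)) → WaiterWins q C F

/-- The threshold bias: the largest `q ≥ 1` for which Waiter wins the `(1 : q)` game on `K_n`. -/
noncomputable def bwc (n : ℕ) : ℕ :=
  sSup {q : ℕ | 1 ≤ q ∧ WaiterWins q ∅ (⊤ : SimpleGraph (Fin n)).edgeFinset}

end Pool.Agent.H262Z.WC
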