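import Pool.Agent.H262Z.WC.Batch

set_option autoImplicit false

namespace Pool.Agent.H262Z.WC

open Finset

lemma batch {V : Type} [DecidableEq V] {q M B m N : ℕ} (hB : B + 1 = 2 * M) (hM : 30 ≤ M)
    {C F D : Finset (Sym2 V)} {U : Finset V} (hb : Base C F D U) (hm : 0 < m)
    (h1 : B * m ≤ U.card) (h2 : N ≤ U.card) (hq : q + 1 + 2 * (2 * M * N) ≤ 2 * (M * m))
    (hK : ∀ (C' F' D' : Finset (Sym2 V)) (U' : Finset V), Base C' F' D' U' →
      (U \ U').card ≤ 2 * M * N →
      48 * (M : ℤ) ^ 3 * D.card + N * (M : ℤ) ^ 5 ≤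
        48 * (M : ℤ) ^ 3 * D'.card + 972 * (M : ℤ) ^ 8 → WaiterWins q C' F') :
    WaiterWins q C F := by
  have hB0 : 0 < B := by omega
  have hU : 0 < U.card := lt_of_lt_of_le (Nat.mul_pos hB0 hm) h1
  obtain ⟨v0, -⟩ := Finset.card_pos.mp hU
  obtain ⟨g, hg1, hg2⟩ : ∃ g : ℕ → V, (∀ k, k < U.card → g k ∈ U) ∧
      ∀ k k', k < U.card → k' < U.card → g k = g k' → k = k' := by
    refine ⟨fun k => if h : k < U.card then (U.equivFin.symm ⟨k, h⟩ : V) else v0, ?_, ?_⟩
    · intro k hk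
      simp only [dif_pos hk]
      exact (U.equivFin.symm ⟨k, hk⟩).2
    · intro k k' hk hk' h
      simp only [dif_pos hk, dif_pos hk'] at h
      have := U.equivFin.symm.injective (Subtype.ext h)
      simpa using this
  have hlt : ∀ i k, i < B → k ∈ Finset.Ico (i * m) (i * m + m) → k < U.card := by
    intro i k hi hk
    have : (i + 1) * m ≤ B * m := Nat.mul_le_mul_right _ hi
    rw [Nat.succ_mul] at this
    have := (Finset.mem_Ico.mp hk).2
    omega
  have hdiv : ∀ i k, k ∈ Finset.Ico (i * m) (i * m + m) → k / m = i := by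
    intro i k hk
    have := Finset.mem_Ico.mp hk
    exact Nat.div_eq_of_lt_le this.1 (by rw [Nat.succ_mul]; exact this.2)
  let Sd : Finset V := (Finset.range N).image g
  have hSd : Sd ⊆ U := by
    intro y hy
    obtain ⟨k, hk, rfl⟩ := Finset.mem_image.mp hy
    exact hg1 k (lt_of_lt_of_le (Finset.mem_range.mp hk) h2)
  have hmem : ∀ c : Fin N, g c ∈ Sd := fun c =>
    Finset.mem_image_of_mem _ (Finset.mem_range.mpr c.2)
  refine run (ι := Fin N) (blk := fun i => (Finset.Ico (i * m) (i * m + m)).image g) (U0 := U)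
    (m := m) hB hM ?_ ?_ ?_ hq _ hK (N * B) C F D (U \ Sd) (fun c _ _ => g c)
    (fun _ p => if p then 1 else 0) (fun _ p => if p then B else 0) ?_ ?_ ?_ ?_ ?_
  · intro i j y hi hj hy hy'
    obtain ⟨k, hk, rfl⟩ := Finset.mem_image.mp hy
    obtain ⟨k', hk', h⟩ := Finset.mem_image.mp hy'
    have := hg2 _ _ (hlt _ _ hj hk') (hlt _ _ hi hk) h
    subst this
    rw [← hdiv _ _ hk, hdiv _ _ hk']
  · intro i hi
    rw [Finset.card_image_of_injOn]
    · simp
    · intro k hk k' hk' h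
      exact hg2 _ _ (hlt _ _ hi hk) (hlt _ _ hi hk') h
  · intro i hi y hy
    obtain ⟨k, hk, rfl⟩ := Finset.mem_image.mp hy
    exact hg1 _ (hlt _ _ hi hk)
  · exact ⟨fun x hx y hy => hb.clique x (Finset.mem_sdiff.mp hx).1 y (Finset.mem_sdiff.mp hy).1,
      hb.sub, hb.bad, fun e he y hy => hb.avoid e he y (Finset.mem_sdiff.mp hy).1⟩
  · refine ⟨fun c p i _ h => (Finset.mem_sdiff.mp h).2 (hmem c), ?_, ?_, ?_, ?_, ?_⟩
    · intro c p i c' p' i' hi hi' h
      have := hg2 _ _ (lt_of_lt_of_le c.2 h2) (lt_of_lt_of_le c'.2 h2) h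
      refine ⟨Fin.ext this, ?_⟩
      cases p <;> cases p' <;> simp at hi hi' <;> simp [hi, hi']
    · intro c p j _ _ y _ hy
      refine hb.clique _ (hSd (hmem c)) _ (Finset.mem_sdiff.mp hy).1 fun h => ?_
      exact (Finset.mem_sdiff.mp hy).2 (h ▸ hmem c)
    · intro col _ c p i p' i' hi hi'
      cases p <;> cases p' <;> simp at hi hi' <;> simp
    · intro c p
      cases p <;> simp
    · intro c p
      cases p <;> simp
      omega
  · simp
  · have : (U \ (U \ Sd)).card ≤ N := by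
      rw [Finset.sdiff_sdiff_eq_self hSd]
      exact Finset.card_image_le.trans (by simp)
    rw [← hB, Nat.succ_mul, mul_comm B N]
    omega
  · have : Phi M B = (M : ℤ) ^ 5 := by unfold Phi; rw [if_pos hB]
    simp [this]

lemma scales (k : ℕ) : ∃ M n0 : ℕ, 16 ≤ M ∧ ∀ n, n0 ≤ n → ∀ q, n ≤ q + 1 →
    ∀ (V : Type) [DecidableEq V] (C F D : Finset (Sym2 V)) (U : Finset V), Base C F D U →
      4 * M * (q + 1) ≤ 4 * M * U.card + n → 2000 * (q + 1) ≤ 2000 * D.card + k * n →
      WaiterWins q C F := by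
  induction k with
  | zero =>
    exact ⟨16, 0, le_rfl, fun n _ q _ V _ C F D U hb _ h =>
      win_of_bad q C F D hb.sub hb.bad (by omega)⟩
  | succ k ih =>
    obtain ⟨M0, n0, hM0, ih⟩ := ih
    refine ⟨2 * M0, max n0 (200000 * (2 * M0) ^ 5), by omega, ?_⟩
    intro n hn q hq V _ C F D U hb h1 h2
    have hn0 : n0 ≤ n := le_trans (le_max_left _ _) hn
    have hn1 : 200000 * (2 * M0) ^ 5 ≤ n := le_trans (le_max_right _ _) hn
    have ih' := ih n hn0 q hq V
    have e0 : 4 * M0 = 2 * (2 * M0) := by ring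
    rw [e0] at ih'
    have hM : 32 ≤ 2 * M0 := by omega
    generalize 2 * M0 = M at *
    obtain ⟨B, hB⟩ : ∃ B, B + 1 = 2 * M := ⟨2 * M - 1, by omega⟩
    have hp : 0 < 32 * M ^ 2 := by positivity
    have a1 := Nat.mul_div_le n (32 * M ^ 2)
    have a2 := Nat.lt_mul_div_succ n hp
    generalize n / (32 * M ^ 2) = N at *
    have hp2 : 0 < 2 * M := by omega
    have a3 := Nat.mul_div_le (q + 1 + 4 * M * N) (2 * M)
    have a4 := Nat.lt_mul_div_succ (q + 1 + 4 * M * N) hp2
    generalize (q + 1 + 4 * M * N) / (2 * M) = m at *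
    have hM25 : M ^ 2 ≤ M ^ 5 := Nat.pow_le_pow_right (by omega) (by norm_num)
    have hM12 : M ≤ M ^ 2 := by nlinarith
    refine batch (m := m + 1) (N := N) hB (by omega) hb (by omega) ?_ ?_ (by nlinarith) ?_
    · refine Nat.le_of_mul_le_mul_left (c := 4 * M) ?_ (by omega)
      have b1 : 4 * M * (B * (m + 1)) = 2 * B * (2 * M * m + 2 * M) := by ring
      have b2 : 2 * B * (2 * M * m + 2 * M) ≤ 2 * B * (q + 1 + 4 * M * N + 2 * M) :=
        Nat.mul_le_mul_left _ (by omega)
      have b3 : 2 * B * (q + 1) + 2 * (q + 1) = 4 * M * (q + 1) := by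
        have : 4 * M = 2 * B + 2 := by omega
        rw [this]; ring
      have b4 : 2 * B * (4 * M * N + 2 * M) ≤ 4 * M * (4 * M * N + 2 * M) :=
        Nat.mul_le_mul_right _ (by omega)
      nlinarith
    · refine Nat.le_of_mul_le_mul_left (c := 4 * M) ?_ (by omega)
      have b1 : 4 * M * n ≤ 4 * M * (q + 1) := Nat.mul_le_mul_left _ hq
      have b2 : M * N ≤ M ^ 2 * N := Nat.mul_le_mul_right _ hM12
      have b3 : 32 * n ≤ M * n := Nat.mul_le_mul_right _ hM
      nlinarith
    · intro C' F' D' U' hb' hU hD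
      refine ih' C' F' D' U' hb' ?_ ?_
      · have b1 : U.card ≤ (U \ U').card + U'.card := Finset.card_le_card_sdiff_add_card
        have b2 : 4 * M * U.card ≤ 4 * M * (2 * M * N + U'.card) :=
          Nat.mul_le_mul_left _ (by omega)
        nlinarith
      · have b1 : 2000 * D.card + n ≤ 2000 * D'.card := by
          have hD' : 48 * M ^ 3 * D.card + N * M ^ 5 ≤ 48 * M ^ 3 * D'.card + 972 * M ^ 8 := by
            exact_mod_cast hD
          have c1 : M ^ 3 * (48 * D.card + N * M ^ 2) ≤ M ^ 3 * (48 * D'.card + 972 * M ^ 5) := by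
            nlinarith
          have c2 := Nat.le_of_mul_le_mul_left c1 (by positivity)
          nlinarith
        nlinarith

lemma bdd (n : ℕ) :
    BddAbove {q : ℕ | 1 ≤ q ∧ WaiterWins q ∅ (⊤ : SimpleGraph (Fin n)).edgeFinset} := by
  have small : ∀ e : Sym2 (Fin n),
      (SimpleGraph.fromEdgeSet (({e} : Finset (Sym2 (Fin n))) : Set (Sym2 (Fin n)))).IsBipartite := by
    intro e
    induction e using Sym2.ind with
    | _ a b =>
      refine ⟨SimpleGraph.Coloring.mk (fun v => if v = a then 0 else 1) ?_⟩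
      intro v w h
      rw [SimpleGraph.fromEdgeSet_adj] at h
      obtain ⟨h1, h2⟩ := h
      simp only [coe_singleton, Set.mem_singleton_iff] at h1
      rcases Sym2.eq_iff.mp h1 with ⟨rfl, rfl⟩ | ⟨rfl, rfl⟩
      · simp [h2.symm]
      · simp [h2]
  have inv : ∀ (q : ℕ) (C F : Finset (Sym2 (Fin n))), WaiterWins q C F → F = ∅ →
      ¬ (SimpleGraph.fromEdgeSet (C : Set (Sym2 (Fin n)))).IsBipartite := by
    intro q C F h hF
    cases h with
    | finish _ h => exact h
    | round _ _ S hne => exact absurd hF hne.ne_empty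
  refine ⟨(⊤ : SimpleGraph (Fin n)).edgeFinset.card, fun q hq => ?_⟩
  obtain ⟨-, hq⟩ := hq
  generalize (⊤ : SimpleGraph (Fin n)).edgeFinset = F at hq
  by_contra hlt
  have key : ∀ (C F : Finset (Sym2 (Fin n))), WaiterWins q C F → C = ∅ → ¬ q ≤ F.card → False := by
    intro C F h hC hlt
    cases h with
    | finish _ h =>
      subst hC
      apply h
      refine ⟨SimpleGraph.Coloring.mk (fun _ => 0) ?_⟩
      intro v w h
      simp at h
    | round _ _ S hne hS hc h =>
      subst hC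
      have : S = F := Finset.eq_of_subset_of_card_le hS (by rw [hc, min_eq_right (by omega)])
      subst this
      obtain ⟨e, he⟩ := hne
      exact inv q _ _ (h e he) (Finset.sdiff_self _) (by simpa using small e)
  exact key _ _ hq rfl hlt

theorem main : ∃ ε : ℝ, 0 < ε ∧ ∀ᶠ n : ℕ in Filter.atTop, (1 + ε) * n ≤ (bwc n : ℝ) := by
  obtain ⟨M, n0, hM, h⟩ := scales 4000
  have hM' : (16 : ℝ) ≤ M := by exact_mod_cast hM
  refine ⟨1 / (8 * M), by positivity, ?_⟩
  filter_upwards [Filter.eventually_ge_atTop (max n0 (16 * M))] with n hn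
  have hn0 : n0 ≤ n := le_trans (le_max_left _ _) hn
  have hn1 : 16 * M ≤ n := le_trans (le_max_right _ _) hn
  have hp : 0 < 4 * M := by omega
  have a1 := Nat.mul_div_le n (4 * M)
  have a2 := Nat.lt_mul_div_succ n hp
  generalize n / (4 * M) = r at *
  obtain ⟨q, hq⟩ : ∃ q, q + 1 = n + r := ⟨n + r - 1, by omega⟩
  have hr : r ≤ n := by nlinarith
  have hw : WaiterWins q ∅ (⊤ : SimpleGraph (Fin n)).edgeFinset := by
    refine h n hn0 q (by omega) (Fin n) ∅ _ ∅ Finset.univ ⟨?_, by simp, by simp, by simp⟩ ?_ ?_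
    · intro x _ y _ hxy
      simpa using hxy
    · rw [hq, Finset.card_univ, Fintype.card_fin]; nlinarith
    · omega
  have hle : q ≤ bwc n := le_csSup (bdd n) ⟨by omega, hw⟩
  have b1 : (q : ℝ) ≤ bwc n := by exact_mod_cast hle
  have b2 : (q : ℝ) + 1 = n + r := by exact_mod_cast hq
  have b3 : (n : ℝ) < 4 * M * (r + 1) := by exact_mod_cast a2
  have b4 : 16 * (M : ℝ) ≤ n := by exact_mod_cast hn1
  have b5 : 1 / (8 * (M : ℝ)) * n ≤ r - 1 := by
    rw [div_mul_eq_mul_div, one_mul, div_le_iff₀ (by positivity)]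
    nlinarith
  linarith

end Pool.Agent.H262Z.WC
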