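import Pool.Agent.H262Z.WC.Defs

set_option autoImplicit false

namespace Pool.Agent.H262Z.WC

open Finset

variable {V : Type} [DecidableEq V]

def Proper (C : Finset (Sym2 V)) (col : V → Bool) : Prop :=
  ∀ x y, x ≠ y → s(x, y) ∈ C → col x ≠ col y

def Bad (C : Finset (Sym2 V)) (e : Sym2 V) : Prop := ∀ col, ¬ Proper (insert e C) col

omit [DecidableEq V] in
lemma Proper.mono {C C' : Finset (Sym2 V)} {col : V → Bool} (h : Proper C' col) (hs : C ⊆ C') :
    Proper C col := fun x y hxy hm => h x y hxy (hs hm)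

omit [DecidableEq V] in
lemma not_bip {C : Finset (Sym2 V)} (h : ∀ col, ¬ Proper C col) :
    ¬ (SimpleGraph.fromEdgeSet (C : Set (Sym2 V))).IsBipartite := by
  rintro ⟨c⟩
  refine h (fun v => decide (c v = 0)) ?_
  intro x y hxy hm
  have hadj : (SimpleGraph.fromEdgeSet (C : Set (Sym2 V))).Adj x y := by
    rw [SimpleGraph.fromEdgeSet_adj]; exact ⟨by simpa using hm, hxy⟩
  have := c.valid hadj
  show decide (c x = 0) ≠ decide (c y = 0)
  revert this
  generalize c x = a
  generalize c y = b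
  revert a b
  decide

lemma win_of_noncol (q : ℕ) (F : Finset (Sym2 V)) :
    ∀ C : Finset (Sym2 V), (∀ col, ¬ Proper C col) → WaiterWins q C F := by
  induction F using Finset.strongInduction with
  | H F ih =>
    intro C hC
    rcases F.eq_empty_or_nonempty with rfl | hne
    · exact WaiterWins.finish C (not_bip hC)
    · obtain ⟨S, hS, hcard⟩ := Finset.exists_subset_card_eq (s := F) (n := min (q + 1) F.card)
        (min_le_right _ _)
      refine WaiterWins.round C F S hne hS hcard fun e he => ih _ ?_ _ ?_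
      · exact Finset.sdiff_ssubset hS ⟨e, he⟩
      · exact fun col hp => hC col (hp.mono (Finset.subset_insert _ _))

lemma win_of_bad (q : ℕ) (C F D : Finset (Sym2 V)) (hD : D ⊆ F) (hb : ∀ e ∈ D, Bad C e)
    (hq : q + 1 ≤ D.card) : WaiterWins q C F := by
  obtain ⟨S, hS, hcard⟩ := Finset.exists_subset_card_eq hq
  have h1 : D.card ≤ F.card := Finset.card_le_card hD
  refine WaiterWins.round C F S (Finset.card_pos.mp (by omega)) (hS.trans hD)
    (by rw [hcard, min_eq_left (by omega)]) fun e he => win_of_noncol q _ _ (hb e (hS he))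

structure Base (C F D : Finset (Sym2 V)) (U : Finset V) : Prop where
  clique : ∀ x ∈ U, ∀ y ∈ U, x ≠ y → s(x, y) ∈ F
  sub : D ⊆ F
  bad : ∀ e ∈ D, Bad C e
  avoid : ∀ e ∈ D, ∀ y ∈ U, y ∉ e

structure Good {ι : Type} (M B : ℕ) (blk : ℕ → Finset V) (C F : Finset (Sym2 V)) (U : Finset V)
    (t : ι → Bool → ℕ → V) (l x : ι → Bool → ℕ) : Prop where
  out : ∀ c p i, i < l c p → t c p i ∉ U
  inj : ∀ c p i c' p' i', i < l c p → i' < l c' p' → t c p i = t c' p' i' →
    c = c' ∧ p = p' ∧ i = i'
  free : ∀ c p j, j < B * l c p → B * l c p ≤ j + x c p → ∀ y ∈ blk (j % B), y ∈ U →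
    s(t c p (j / B), y) ∈ F
  col : ∀ col, Proper C col → ∀ c p i p' i', i < l c p → i' < l c p' →
    xor (col (t c p i)) p = xor (col (t c p' i')) p'
  le : ∀ c p, x c p ≤ B * l c p
  bal : ∀ c p, x c p ≤ x c (!p) + 3 * M

/-- edges offered from side `p` of component `c` -/
def Off {ι : Type} (M B : ℕ) (blk : ℕ → Finset V) (U : Finset V)
    (t : ι → Bool → ℕ → V) (l x : ι → Bool → ℕ) (c : ι) (p : Bool) (e : Sym2 V) : Prop :=
  ∃ j y, B * l c p ≤ j + x c p ∧ j + x c p < B * l c p + M ∧ y ∈ blk (j % B) ∧ y ∈ U ∧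
    e = s(t c p (j / B), y)

lemma step {ι : Type} [DecidableEq ι] {M B : ℕ} (hB : B + 1 = 2 * M) (hM : 1 ≤ M)
    {blk : ℕ → Finset V} (hdisj : ∀ i j y, i < B → j < B → y ∈ blk i → y ∈ blk j → i = j)
    {C F D : Finset (Sym2 V)} {U : Finset V} {t : ι → Bool → ℕ → V} {l x : ι → Bool → ℕ}
    (hb : Base C F D U) (hg : Good M B blk C F U t l x)
    {a b : ι} {pa pb : Bool} (hab : a ≠ b) (hxa : M ≤ x a pa) (hxb : M ≤ x b pb)
    (hla : x a (!pa) ≤ x a pa) (hlb : x b (!pb) ≤ x b pb)
    {S : Finset (Sym2 V)}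
    (hS : ∀ e ∈ S, Off M B blk U t l x a pa e ∨ Off M B blk U t l x b pb e)
    {e : Sym2 V} (he : Off M B blk U t l x a pa e) :
    ∃ (D' : Finset (Sym2 V)) (u : V) (t' : ι → Bool → ℕ → V) (l' x' : ι → Bool → ℕ),
      u ∈ U ∧ Base (insert e C) (F \ S) D' (U.erase u) ∧
      Good M B blk (insert e C) (F \ S) (U.erase u) t' l' x' ∧
      D'.card = D.card + x a (!pa) / B ∧
      x' a true + x' a false + M = x a true + x a false + B ∧
      x' b true + x' b false + M = x b true + x b false ∧
      ∀ c, c ≠ a → c ≠ b → x' c true + x' c false = x c true + x c false := by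
  have hB0 : 0 < B := by omega
  obtain ⟨j0, u, hj1, hj2, hub, huU, rfl⟩ := he
  have hj0 : j0 < B * l a pa := by omega
  have hi0 : j0 / B < l a pa := (Nat.div_lt_iff_lt_mul hB0).mpr (by rw [mul_comm]; exact hj0)
  -- which edges can be in `S`
  have hS1 : ∀ v w, v ∈ U → w ∈ U → s(v, w) ∉ S := by
    intro v w hv hw hm
    rcases hS _ hm with ⟨j, y, h1, h2, h3, h4, h5⟩ | ⟨j, y, h1, h2, h3, h4, h5⟩
    · have hi : j / B < l a pa :=
        (Nat.div_lt_iff_lt_mul hB0).mpr (by rw [mul_comm]; omega)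
      have := hg.out _ _ _ hi
      rcases Sym2.eq_iff.mp h5 with ⟨h6, -⟩ | ⟨-, h6⟩ <;> (subst h6; contradiction)
    · have hi : j / B < l b pb :=
        (Nat.div_lt_iff_lt_mul hB0).mpr (by rw [mul_comm]; omega)
      have := hg.out _ _ _ hi
      rcases Sym2.eq_iff.mp h5 with ⟨h6, -⟩ | ⟨-, h6⟩ <;> (subst h6; contradiction)
  have hS2 : ∀ c p j y, j < B * l c p → y ∈ blk (j % B) → y ∈ U → s(t c p (j / B), y) ∈ S →
      ((c = a ∧ p = pa) ∨ (c = b ∧ p = pb)) ∧ j + x c p < B * l c p + M := by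
    intro c p j y hj hy hyU hm
    have hi : j / B < l c p := (Nat.div_lt_iff_lt_mul hB0).mpr (by rw [mul_comm]; exact hj)
    have key : ∀ c' p', M ≤ x c' p' → Off M B blk U t l x c' p' s(t c p (j / B), y) →
        (c = c' ∧ p = p') ∧ j + x c p < B * l c p + M := by
      rintro c' p' hx ⟨j', y', h1, h2, h3, h4, h5⟩
      have hi' : j' / B < l c' p' :=
        (Nat.div_lt_iff_lt_mul hB0).mpr (by rw [mul_comm]; omega)
      rcases Sym2.eq_iff.mp h5 with ⟨h6, h7⟩ | ⟨h6, -⟩
      · obtain ⟨rfl, rfl, h8⟩ := hg.inj _ _ _ _ _ _ hi hi' h6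
        subst h7
        have h9 := hdisj _ _ _ (Nat.mod_lt _ hB0) (Nat.mod_lt _ hB0) hy h3
        have : j = j' := by
          rw [← Nat.div_add_mod j B, ← Nat.div_add_mod j' B, h8, h9]
        subst this
        exact ⟨⟨rfl, rfl⟩, h2⟩
      · exact absurd (h6 ▸ h4) (hg.out _ _ _ hi)
    rcases hS _ hm with h | h
    · exact ⟨Or.inl (key _ _ hxa h).1, (key _ _ hxa h).2⟩
    · exact ⟨Or.inr (key _ _ hxb h).1, (key _ _ hxb h).2⟩
  have hnp : ∀ p : Bool, (!p) ≠ p := by decide
  set f := x a (!pa) / B with hf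
  have hfl : f ≤ l a (!pa) := by
    rw [hf]; exact Nat.div_le_of_le_mul (hg.le _ _)
  have hfx : B * f ≤ x a (!pa) := Nat.mul_div_le _ _
  have hne0 : t a pa (j0 / B) ≠ u := fun h => hg.out _ _ _ hi0 (h ▸ huU)
  let I := Finset.Ico (l a (!pa) - f) (l a (!pa))
  let N := I.image fun i => s(t a (!pa) i, u)
  have hNcard : N.card = f := by
    rw [Finset.card_image_of_injOn]
    · simp only [I, Nat.card_Ico]; exact Nat.sub_sub_self hfl
    · intro i hi i' hi' h
      simp only [I, coe_Ico, Set.mem_Ico] at hi hi'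
      rcases Sym2.eq_iff.mp h with ⟨h6, -⟩ | ⟨h6, -⟩
      · exact (hg.inj _ _ _ _ _ _ hi.2 hi'.2 h6).2.2
      · exact absurd (h6 ▸ huU) (hg.out _ _ _ hi.2)
  have hDN : Disjoint D N := by
    rw [Finset.disjoint_left]
    intro e' he' hN
    obtain ⟨i, -, rfl⟩ := Finset.mem_image.mp hN
    exact hb.avoid _ he' u huU (Sym2.mem_mk_right _ _)
  refine ⟨D ∪ N, u, fun c p i => if c = a ∧ p = (!pa) ∧ i = l a (!pa) then u else t c p i,
    fun c p => if c = a ∧ p = (!pa) then l c p + 1 else l c p,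
    fun c p => if c = a ∧ p = (!pa) then x c p + B else
      if (c = a ∧ p = pa) ∨ (c = b ∧ p = pb) then x c p - M else x c p, huU, ?_, ?_, ?_, ?_, ?_, ?_⟩
  · refine ⟨fun v hv w hw hvw => ?_, fun e' he' => ?_, fun e' he' => ?_, fun e' he' y hy => ?_⟩
    · have hv' := Finset.mem_of_mem_erase hv
      have hw' := Finset.mem_of_mem_erase hw
      exact Finset.mem_sdiff.mpr ⟨hb.clique _ hv' _ hw' hvw, hS1 _ _ hv' hw'⟩
    · rcases Finset.mem_union.mp he' with h | h
      · refine Finset.mem_sdiff.mpr ⟨hb.sub h, fun hm => ?_⟩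
        rcases hS _ hm with ⟨j, y, -, -, -, h4, rfl⟩ | ⟨j, y, -, -, -, h4, rfl⟩
        · exact hb.avoid _ h y h4 (Sym2.mem_mk_right _ _)
        · exact hb.avoid _ h y h4 (Sym2.mem_mk_right _ _)
      · obtain ⟨i, hi, rfl⟩ := Finset.mem_image.mp h
        simp only [I, Finset.mem_Ico] at hi
        have hm := Nat.mod_lt j0 hB0
        have h1 : (B * i + j0 % B) / B = i := by
          rw [Nat.mul_add_div hB0, Nat.div_eq_of_lt hm]; rfl
        have h2 : (B * i + j0 % B) % B = j0 % B := by
          rw [Nat.mul_add_mod, Nat.mod_mod]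
        have h3 : B * i + j0 % B < B * l a (!pa) := by
          have : B * (i + 1) ≤ B * l a (!pa) := Nat.mul_le_mul_left _ hi.2
          rw [Nat.mul_succ] at this; omega
        have h4 : B * l a (!pa) ≤ B * i + j0 % B + x a (!pa) := by
          have : B * l a (!pa) ≤ B * (i + f) := Nat.mul_le_mul_left _ (by omega)
          rw [Nat.mul_add] at this; omega
        have hub' : u ∈ blk ((B * i + j0 % B) % B) := by rw [h2]; exact hub
        have h5 := hg.free a (!pa) _ h3 h4 u hub' huU
        rw [h1] at h5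
        refine Finset.mem_sdiff.mpr ⟨h5, fun hm' => ?_⟩
        have h6 := (hS2 a (!pa) _ u h3 hub' huU (by rw [h1]; exact hm')).1
        rcases h6 with ⟨-, h7⟩ | ⟨h7, -⟩
        · exact hnp _ h7
        · exact hab h7
    · rcases Finset.mem_union.mp he' with h | h
      · intro col hp
        exact hb.bad _ h col (hp.mono (Finset.insert_subset_insert _ (Finset.subset_insert _ _)))
      · obtain ⟨i, hi, rfl⟩ := Finset.mem_image.mp h
        simp only [I, Finset.mem_Ico] at hi
        intro col hp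
        have hne1 : t a (!pa) i ≠ u := fun h => hg.out _ _ _ hi.2 (h ▸ huU)
        have h1 := hp _ _ hne1 (Finset.mem_insert_self _ _)
        have h2 := hp _ _ hne0 (Finset.mem_insert_of_mem (Finset.mem_insert_self _ _))
        have h3 := hg.col col (hp.mono ((Finset.subset_insert _ _).trans
          (Finset.subset_insert _ _))) a pa _ (!pa) i hi0 hi.2
        revert h1 h2 h3
        generalize col (t a (!pa) i) = b1
        generalize col (t a pa (j0 / B)) = b2
        generalize col u = b3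
        cases b1 <;> cases b2 <;> cases b3 <;> cases pa <;> simp
    · rcases Finset.mem_union.mp he' with h | h
      · exact hb.avoid _ h y (Finset.mem_of_mem_erase hy)
      · obtain ⟨i, hi, rfl⟩ := Finset.mem_image.mp h
        simp only [I, Finset.mem_Ico] at hi
        intro hm
        rcases Sym2.mem_iff.mp hm with h1 | h1
        · exact hg.out _ _ _ hi.2 (h1 ▸ Finset.mem_of_mem_erase hy)
        · exact Finset.ne_of_mem_erase hy h1
  · have hold : ∀ c p i, (i < if c = a ∧ p = (!pa) then l c p + 1 else l c p) →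
        ¬ (c = a ∧ p = (!pa) ∧ i = l a (!pa)) → i < l c p := by
      intro c p i hi hn
      split_ifs at hi with h
      · obtain ⟨rfl, rfl⟩ := h
        have : i ≠ l c (!pa) := fun h => hn ⟨rfl, rfl, h⟩
        omega
      · exact hi
    refine ⟨fun c p i hi => ?_, fun c p i c' p' i' hi hi' h => ?_, fun c p j hj hj' y hy hyU => ?_,
      fun col hp c p i p' i' hi hi' => ?_, fun c p => ?_, fun c p => ?_⟩
    · by_cases h : c = a ∧ p = (!pa) ∧ i = l a (!pa)
      · rw [if_pos h]; exact Finset.notMem_erase _ _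
      · rw [if_neg h]; exact fun hm => hg.out _ _ _ (hold _ _ _ hi h) (Finset.mem_of_mem_erase hm)
    · by_cases h1 : c = a ∧ p = (!pa) ∧ i = l a (!pa) <;>
        by_cases h2 : c' = a ∧ p' = (!pa) ∧ i' = l a (!pa)
      · exact ⟨h1.1.trans h2.1.symm, h1.2.1.trans h2.2.1.symm, h1.2.2.trans h2.2.2.symm⟩
      · rw [if_pos h1, if_neg h2] at h
        exact absurd (h ▸ huU) (hg.out _ _ _ (hold _ _ _ hi' h2))
      · rw [if_neg h1, if_pos h2] at h
        exact absurd (h ▸ huU) (hg.out _ _ _ (hold _ _ _ hi h1))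
      · rw [if_neg h1, if_neg h2] at h
        exact hg.inj _ _ _ _ _ _ (hold _ _ _ hi h1) (hold _ _ _ hi' h2) h
    · have hyU' := Finset.mem_of_mem_erase hyU
      by_cases h : c = a ∧ p = (!pa) ∧ j / B = l a (!pa)
      · rw [if_pos h]
        exact Finset.mem_sdiff.mpr ⟨hb.clique _ huU _ hyU' (Finset.ne_of_mem_erase hyU).symm,
          hS1 _ _ huU hyU'⟩
      · rw [if_neg h]
        have hi : j / B < l c p :=
          hold _ _ _ ((Nat.div_lt_iff_lt_mul hB0).mpr (by rw [mul_comm]; exact hj)) h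
        have hj3 : j < B * l c p := by
          rw [mul_comm]; exact (Nat.div_lt_iff_lt_mul hB0).mp hi
        by_cases h1 : c = a ∧ p = (!pa)
        · rw [if_pos h1, if_pos h1, Nat.mul_succ] at hj'
          refine Finset.mem_sdiff.mpr ⟨hg.free _ _ _ hj3 (by omega) _ hy hyU', fun hm => ?_⟩
          rcases (hS2 _ _ _ _ hj3 hy hyU' hm).1 with ⟨-, h7⟩ | ⟨h7, -⟩
          · exact hnp _ (h1.2 ▸ h7)
          · exact hab (h1.1 ▸ h7)
        · rw [if_neg h1, if_neg h1] at hj'
          by_cases h2 : (c = a ∧ p = pa) ∨ (c = b ∧ p = pb)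
          · rw [if_pos h2] at hj'
            have hx : M ≤ x c p := by
              rcases h2 with ⟨rfl, rfl⟩ | ⟨rfl, rfl⟩ <;> assumption
            refine Finset.mem_sdiff.mpr ⟨hg.free _ _ _ hj3 (by omega) _ hy hyU', fun hm => ?_⟩
            have := (hS2 _ _ _ _ hj3 hy hyU' hm).2
            omega
          · rw [if_neg h2] at hj'
            exact Finset.mem_sdiff.mpr ⟨hg.free _ _ _ hj3 hj' _ hy hyU',
              fun hm => h2 (hS2 _ _ _ _ hj3 hy hyU' hm).1⟩
    · have hp' := hp.mono (Finset.subset_insert _ _)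
      have h0 := hp _ _ hne0 (Finset.mem_insert_self _ _)
      have hnew : xor (col u) (!pa) = xor (col (t a pa (j0 / B))) pa := by
        revert h0
        generalize col (t a pa (j0 / B)) = b2
        generalize col u = b3
        cases b2 <;> cases b3 <;> cases pa <;> simp
      by_cases h1 : c = a ∧ p = (!pa) ∧ i = l a (!pa) <;>
        by_cases h2 : c = a ∧ p' = (!pa) ∧ i' = l a (!pa)
      · rw [if_pos h1, if_pos h2, h1.2.1, h2.2.1]
      · rw [if_pos h1, if_neg h2, h1.2.1, hnew]
        have := hold _ _ _ hi' h2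
        obtain ⟨rfl, -, -⟩ := h1
        exact hg.col col hp' _ _ _ _ _ hi0 this
      · rw [if_neg h1, if_pos h2, h2.2.1, hnew]
        have := hold _ _ _ hi h1
        obtain ⟨rfl, -, -⟩ := h2
        exact hg.col col hp' _ _ _ _ _ this hi0
      · rw [if_neg h1, if_neg h2]
        exact hg.col col hp' _ _ _ _ _ (hold _ _ _ hi h1) (hold _ _ _ hi' h2)
    · have := hg.le c p
      split_ifs
      · rw [Nat.mul_succ]; omega
      · omega
      · omega
    · have h1 := hg.bal c p
      have h2 := hg.bal c (!p)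
      rw [Bool.not_not] at h2
      by_cases hca : c = a
      · subst hca
        have hcb : ¬ c = b := hab
        cases p <;> cases pa <;> simp [hcb] at * <;> omega
      · by_cases hcb : c = b
        · subst hcb
          cases p <;> cases pb <;> simp [hca] at * <;> omega
        · simp [hca, hcb]; omega
  · rw [Finset.card_union_of_disjoint hDN, hNcard]
  · have hcb : ¬ a = b := hab
    cases pa <;> simp [hcb] at * <;> omega
  · have hcb : ¬ b = a := fun h => hab h.symm
    cases pb <;> simp [hcb] at * <;> omega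
  · intro c hca hcb
    simp [hca, hcb]

end Pool.Agent.H262Z.WC
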